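import Pool.Agent.H86.TT.Map
import Pool.Agent.H35.TT.TMon

/-!
If `Φ` is monoidal (braided) and additive, so are the induced functors on families, complexes and
homotopy categories.
-/

open CategoryTheory CategoryTheory.Limits MonoidalCategory

namespace Pool.Agent.H75.TT

variable {P P' : Type} [Category.{0} P] [Preadditive P] [MonoidalCategory P]
  [MonoidalPreadditive P] [Category.{0} P'] [Preadditive P'] [MonoidalCategory P']
  [MonoidalPreadditive P']

open Functor.LaxMonoidal Functor.OplaxMonoidal Functor.Monoidal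

namespace Fam

section general

variable (Φ : P ⥤ P') [Φ.Additive]

lemma mapF_diag {F G : Fam P} (e : F.ι → G.ι) (φ : ∀ i, F.X i ⟶ G.X (e i)) :
    (mapF Φ).map (diag e φ) =
      diag (F := (mapF Φ).obj F) (G := (mapF Φ).obj G) e (fun i => Φ.map (φ i)) := by
  ext i j
  by_cases h : e i = j
  · subst h
    rw [mapF_m, diag_m_self]
    exact (diag_m_self (F := (mapF Φ).obj F) (G := (mapF Φ).obj G) e
      (fun i => Φ.map (φ i)) i).symm
  · rw [mapF_m, diag_m_ne e φ h, CategoryTheory.Functor.map_zero]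
    exact (diag_m_ne (F := (mapF Φ).obj F) (G := (mapF Φ).obj G) e
      (fun i => Φ.map (φ i)) h).symm

lemma mapF_sgn {F : Fam P} (a : F.ι → ℤ) :
    (mapF Φ).map (sgn a) = sgn (F := (mapF Φ).obj F) a := by
  refine (mapF_diag Φ (F := F) (G := F) (fun i => i) _).trans ?_
  refine diag_ext (F := (mapF Φ).obj F) (G := (mapF Φ).obj F) (fun i => i) fun i => ?_
  rw [CategoryTheory.Functor.map_zsmul, CategoryTheory.Functor.map_id]
  rfl

end general

section mon

variable (Φ : P ⥤ P') [Φ.Additive] [Φ.Monoidal]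

/-- The tensorator on families. -/
noncomputable def muIso (F G : Fam P) :
    tens ((mapF Φ).obj F) ((mapF Φ).obj G) ≅ (mapF Φ).obj (tens F G) where
  hom := diag (F := tens ((mapF Φ).obj F) ((mapF Φ).obj G)) (G := (mapF Φ).obj (tens F G))
    (fun p => p) (fun p => μ Φ (F.X p.1) (G.X p.2))
  inv := diag (G := tens ((mapF Φ).obj F) ((mapF Φ).obj G)) (F := (mapF Φ).obj (tens F G))
    (fun p => p) (fun p => δ Φ (F.X p.1) (G.X p.2))
  hom_inv_id := by
    rw [diag_comp_diag, id_eq_diag]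
    exact diag_ext (F := tens ((mapF Φ).obj F) ((mapF Φ).obj G))
      (G := tens ((mapF Φ).obj F) ((mapF Φ).obj G)) _ fun p => μ_δ _ _ _
  inv_hom_id := by
    rw [diag_comp_diag, id_eq_diag]
    exact diag_ext (F := (mapF Φ).obj (tens F G)) (G := (mapF Φ).obj (tens F G)) _
      fun p => δ_μ _ _ _

/-- The unit comparison on families. -/
noncomputable def epsIso : unit P' ≅ (mapF Φ).obj (unit P) where
  hom := diag (F := unit P') (G := (mapF Φ).obj (unit P)) (fun p => p) (fun _ => ε Φ)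
  inv := diag (G := unit P') (F := (mapF Φ).obj (unit P)) (fun p => p) (fun _ => η Φ)
  hom_inv_id := by
    rw [diag_comp_diag, id_eq_diag]
    exact diag_ext (F := unit P') (G := unit P') _ fun p => ε_η _
  inv_hom_id := by
    rw [diag_comp_diag, id_eq_diag]
    exact diag_ext (F := (mapF Φ).obj (unit P)) (G := (mapF Φ).obj (unit P)) _ fun p => η_ε _

lemma mu_natural {F F' G G' : Fam P} (f : F ⟶ F') (g : G ⟶ G') :
    tensHom ((mapF Φ).map f) ((mapF Φ).map g) ≫ (muIso Φ F' G').hom =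
      (muIso Φ F G).hom ≫ (mapF Φ).map (tensHom f g) := by
  refine diag_natural (F := tens ((mapF Φ).obj F) ((mapF Φ).obj G))
    (G := tens ((mapF Φ).obj F') ((mapF Φ).obj G')) (F' := (mapF Φ).obj (tens F G))
    (G' := (mapF Φ).obj (tens F' G')) _ _ _ _ (fun p => p) (fun _ => rfl) (fun _ => rfl) ?_
  intro i j
  exact μ_natural Φ (f.m i.1 j.1) (g.m i.2 j.2)

lemma mu_assoc (X Y Z : Fam P) :
    tensHom (muIso Φ X Y).hom (𝟙 ((mapF Φ).obj Z)) ≫ (muIso Φ (tens X Y) Z).hom ≫
      (mapF Φ).map (assocIso X Y Z).hom =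
    (assocIso ((mapF Φ).obj X) ((mapF Φ).obj Y) ((mapF Φ).obj Z)).hom ≫
      tensHom (𝟙 ((mapF Φ).obj X)) (muIso Φ Y Z).hom ≫ (muIso Φ X (tens Y Z)).hom := by
  simp only [muIso, assocIso]
  rw [id_eq_diag ((mapF Φ).obj X), id_eq_diag ((mapF Φ).obj Z), tensHom_diag, tensHom_diag,
    mapF_diag, diag_comp_diag, diag_comp_diag, diag_comp_diag, diag_comp_diag]
  refine diag_ext (F := tens (tens ((mapF Φ).obj X) ((mapF Φ).obj Y)) ((mapF Φ).obj Z))
    (G := (mapF Φ).obj (tens X (tens Y Z))) _ ?_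
  intro p
  have := Functor.LaxMonoidal.associativity Φ (X.X p.1.1) (Y.X p.1.2) (Z.X p.2)
  rw [← MonoidalCategory.tensorHom_id, ← MonoidalCategory.id_tensorHom] at this
  exact this

lemma mu_left (X : Fam P) : (leftIso ((mapF Φ).obj X)).hom =
    tensHom (epsIso Φ).hom (𝟙 ((mapF Φ).obj X)) ≫ (muIso Φ (unit P) X).hom ≫
      (mapF Φ).map (leftIso X).hom := by
  simp only [muIso, leftIso, epsIso]
  rw [id_eq_diag ((mapF Φ).obj X), tensHom_diag, mapF_diag, diag_comp_diag, diag_comp_diag]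
  refine diag_ext (F := tens (unit P') ((mapF Φ).obj X)) (G := (mapF Φ).obj X) _ ?_
  intro p
  have := Functor.LaxMonoidal.left_unitality Φ (X.X p.2)
  rw [← MonoidalCategory.tensorHom_id] at this
  exact this

lemma mu_right (X : Fam P) : (rightIso ((mapF Φ).obj X)).hom =
    tensHom (𝟙 ((mapF Φ).obj X)) (epsIso Φ).hom ≫ (muIso Φ X (unit P)).hom ≫
      (mapF Φ).map (rightIso X).hom := by
  simp only [muIso, rightIso, epsIso]
  rw [id_eq_diag ((mapF Φ).obj X), tensHom_diag, mapF_diag, diag_comp_diag, diag_comp_diag]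
  refine diag_ext (F := tens ((mapF Φ).obj X) (unit P')) (G := (mapF Φ).obj X) _ ?_
  intro p
  have := Functor.LaxMonoidal.right_unitality Φ (X.X p.1)
  rw [← MonoidalCategory.id_tensorHom] at this
  exact this

lemma mu_homog {F G : Fam P} (a : F.ι → ℤ) (b : G.ι → ℤ) :
    Homog (F := tens ((mapF Φ).obj F) ((mapF Φ).obj G)) (G := (mapF Φ).obj (tens F G))
      (tdeg (F := F) (G := G) a b) (tdeg (F := F) (G := G) a b) 0 (muIso Φ F G).hom :=
  Homog.diag (F := tens ((mapF Φ).obj F) ((mapF Φ).obj G)) (G := (mapF Φ).obj (tens F G))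
    fun _ => (add_zero _).symm

lemma mu_inv_homog {F G : Fam P} (a : F.ι → ℤ) (b : G.ι → ℤ) :
    Homog (G := tens ((mapF Φ).obj F) ((mapF Φ).obj G)) (F := (mapF Φ).obj (tens F G))
      (tdeg (F := F) (G := G) a b) (tdeg (F := F) (G := G) a b) 0 (muIso Φ F G).inv :=
  Homog.diag (G := tens ((mapF Φ).obj F) ((mapF Φ).obj G)) (F := (mapF Φ).obj (tens F G))
    fun _ => (add_zero _).symm

end mon

end Fam

open Fam

namespace DG

section mon

variable (Φ : P ⥤ P') [Φ.Additive] [Φ.Monoidal]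

/-- The tensorator on complexes. -/
noncomputable def muIso (A B : DG P) :
    (mapF Φ).obj A ⊗ (mapF Φ).obj B ≅ (mapF Φ).obj (A ⊗ B) :=
  isoOf (A := (mapF Φ).obj A ⊗ (mapF Φ).obj B) (B := (mapF Φ).obj (A ⊗ B))
    (Fam.muIso Φ A.F B.F) (mu_homog Φ A.deg B.deg) (mu_inv_homog Φ A.deg B.deg) (by
      change (Fam.tensHom ((Fam.mapF Φ).map A.d) (𝟙 ((Fam.mapF Φ).obj B.F)) +
          Fam.tensHom (sgn (F := (Fam.mapF Φ).obj A.F) A.deg) ((Fam.mapF Φ).map B.d)) ≫
          (Fam.muIso Φ A.F B.F).hom =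
        (Fam.muIso Φ A.F B.F).hom ≫ (Fam.mapF Φ).map (Fam.tensHom A.d (𝟙 B.F) +
          Fam.tensHom (sgn A.deg) B.d)
      rw [CategoryTheory.Functor.map_add, Preadditive.comp_add, Preadditive.add_comp,
        ← mu_natural, ← mu_natural, CategoryTheory.Functor.map_id, mapF_sgn])

/-- The unit comparison on complexes. -/
noncomputable def epsIso : 𝟙_ (DG P') ≅ (mapF Φ).obj (𝟙_ (DG P)) :=
  isoOf (A := 𝟙_ (DG P')) (B := (mapF Φ).obj (𝟙_ (DG P))) (Fam.epsIso Φ)
    (Homog.diag (F := Fam.unit P') (G := (Fam.mapF Φ).obj (Fam.unit P))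
      fun _ => (add_zero _).symm)
    (Homog.diag (G := Fam.unit P') (F := (Fam.mapF Φ).obj (Fam.unit P))
      fun _ => (add_zero _).symm) (by
      change (0 : Fam.unit P' ⟶ Fam.unit P') ≫ (Fam.epsIso Φ).hom =
        (Fam.epsIso Φ).hom ≫ (Fam.mapF Φ).map (0 : Fam.unit P ⟶ Fam.unit P)
      rw [CategoryTheory.Functor.map_zero, zero_comp, comp_zero])

lemma mu_natural {A A' B B' : DG P} (f : A ⟶ A') (g : B ⟶ B') :
    ((mapF Φ).map f ⊗ₘ (mapF Φ).map g) ≫ (muIso Φ A' B').hom =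
      (muIso Φ A B).hom ≫ (mapF Φ).map (f ⊗ₘ g) :=
  DG.hom_ext (Fam.mu_natural Φ f.f g.f)

lemma mu_natural_left {A B : DG P} (f : A ⟶ B) (C : DG P) :
    (mapF Φ).map f ▷ (mapF Φ).obj C ≫ (muIso Φ B C).hom =
      (muIso Φ A C).hom ≫ (mapF Φ).map (f ▷ C) := by
  have := mu_natural Φ f (𝟙 C)
  rw [CategoryTheory.Functor.map_id, MonoidalCategory.tensorHom_id,
    MonoidalCategory.tensorHom_id] at this
  exact this

lemma mu_natural_right (C : DG P) {A B : DG P} (f : A ⟶ B) :
    (mapF Φ).obj C ◁ (mapF Φ).map f ≫ (muIso Φ C B).hom =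
      (muIso Φ C A).hom ≫ (mapF Φ).map (C ◁ f) := by
  have := mu_natural Φ (𝟙 C) f
  rw [CategoryTheory.Functor.map_id, MonoidalCategory.id_tensorHom,
    MonoidalCategory.id_tensorHom] at this
  exact this

/-- The monoidal structure on the induced functor on complexes. -/
noncomputable def coreMon : (mapF Φ).CoreMonoidal where
  εIso := epsIso Φ
  μIso := muIso Φ
  μIso_hom_natural_left f C := mu_natural_left Φ f C
  μIso_hom_natural_right C f := mu_natural_right Φ C f
  associativity X Y Z := DG.hom_ext (Fam.mu_assoc Φ X.F Y.F Z.F)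
  left_unitality X := DG.hom_ext (Fam.mu_left Φ X.F)
  right_unitality X := DG.hom_ext (Fam.mu_right Φ X.F)

noncomputable instance : (mapF Φ).Monoidal := (coreMon Φ).toMonoidal

end mon

section braided

variable [BraidedCategory P] [BraidedCategory P'] (Φ : P ⥤ P') [Φ.Additive] [Φ.Braided]

lemma mu_braided (A B : DG P) : (muIso Φ A B).hom ≫ (mapF Φ).map (β_ A B).hom =
    (β_ ((mapF Φ).obj A) ((mapF Φ).obj B)).hom ≫ (muIso Φ B A).hom := by
  apply DG.hom_ext
  change (Fam.muIso Φ A.F B.F).hom ≫ (Fam.mapF Φ).map (kbraid A.deg B.deg).hom =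
    (kbraid (F := (Fam.mapF Φ).obj A.F) (G := (Fam.mapF Φ).obj B.F) A.deg B.deg).hom ≫
      (Fam.muIso Φ B.F A.F).hom
  simp only [Fam.muIso, kbraid]
  rw [mapF_diag, diag_comp_diag, diag_comp_diag]
  refine diag_ext (F := Fam.tens ((Fam.mapF Φ).obj A.F) ((Fam.mapF Φ).obj B.F))
    (G := (Fam.mapF Φ).obj (Fam.tens B.F A.F)) _ ?_
  intro p
  have := Functor.LaxBraided.braided (F := Φ) (A.F.X p.1) (B.F.X p.2)
  change μ Φ (A.F.X p.1) (B.F.X p.2) ≫ Φ.map (((A.deg p.1 * B.deg p.2).negOnePow : ℤ) •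
      (β_ (A.F.X p.1) (B.F.X p.2)).hom) =
    (((A.deg p.1 * B.deg p.2).negOnePow : ℤ) • (β_ (Φ.obj (A.F.X p.1))
      (Φ.obj (B.F.X p.2))).hom) ≫ μ Φ (B.F.X p.2) (A.F.X p.1)
  rw [CategoryTheory.Functor.map_zsmul, Preadditive.comp_zsmul, Preadditive.zsmul_comp, this]

noncomputable instance : (mapF Φ).Braided where
  braided A B := mu_braided Φ A B

end braided

end DG

namespace T

section mon

variable (Φ : P ⥤ P') [Φ.Additive] [Φ.Monoidal]

/-- The monoidal structure on the induced functor on homotopy categories. -/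
noncomputable def coreMon : (mapT Φ).CoreMonoidal where
  εIso := Q.mapIso (DG.epsIso Φ)
  μIso X Y := Q.mapIso (DG.muIso Φ X.as Y.as)
  μIso_hom_natural_left := by
    rintro ⟨X⟩ ⟨Y⟩ ⟨f⟩ ⟨C⟩
    exact congrArg (Q (P := P')).map (DG.mu_natural_left Φ f C)
  μIso_hom_natural_right := by
    rintro ⟨X⟩ ⟨Y⟩ ⟨C⟩ ⟨f⟩
    exact congrArg (Q (P := P')).map (DG.mu_natural_right Φ C f)
  associativity := by
    rintro ⟨X⟩ ⟨Y⟩ ⟨Z⟩
    exact congrArg (Q (P := P')).map ((DG.coreMon Φ).associativity X Y Z)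
  left_unitality := by
    rintro ⟨X⟩
    exact congrArg (Q (P := P')).map ((DG.coreMon Φ).left_unitality X)
  right_unitality := by
    rintro ⟨X⟩
    exact congrArg (Q (P := P')).map ((DG.coreMon Φ).right_unitality X)

noncomputable instance : (mapT Φ).Monoidal := (coreMon Φ).toMonoidal

end mon

section braided

variable [BraidedCategory P] [BraidedCategory P'] (Φ : P ⥤ P') [Φ.Additive] [Φ.Braided]

noncomputable instance : (mapT Φ).Braided where
  braided := by
    rintro ⟨A⟩ ⟨B⟩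
    exact congrArg (Q (P := P')).map (DG.mu_braided Φ A B)

end braided

end T

end Pool.Agent.H75.TT
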