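import Pool.Agent.H86.TT.Map
import Pool.Agent.H75.TT.Tri2

/-!
The functors between homotopy categories induced by additive functors are triangulated.
-/

open CategoryTheory CategoryTheory.Limits CategoryTheory.Pretriangulated

namespace Pool.Agent.H75.TT

variable {P P' : Type} [Category.{0} P] [Preadditive P] [Category.{0} P'] [Preadditive P']

open Fam

namespace DG

section
variable (Φ : P ⥤ P') [Φ.Additive] {A B : DG P}

/-- Comparison of the families of cones. -/
noncomputable def mapSum (F G : Fam P) :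
    (Fam.mapF Φ).obj (Fam.sum F G) ⟶ Fam.sum ((Fam.mapF Φ).obj F) ((Fam.mapF Φ).obj G) :=
  (Fam.mapF Φ).map (fst F G) ≫ inl _ _ + (Fam.mapF Φ).map (snd F G) ≫ inr _ _

/-- Comparison of the families of cones, inverse. -/
noncomputable def mapSumInv (F G : Fam P) :
    Fam.sum ((Fam.mapF Φ).obj F) ((Fam.mapF Φ).obj G) ⟶ (Fam.mapF Φ).obj (Fam.sum F G) :=
  fst _ _ ≫ (Fam.mapF Φ).map (inl F G) + snd _ _ ≫ (Fam.mapF Φ).map (inr F G)

lemma mapSum_mapSumInv (F G : Fam P) : mapSum Φ F G ≫ mapSumInv Φ F G = 𝟙 _ := by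
  rw [mapSum, mapSumInv]
  simp only [Preadditive.add_comp, Preadditive.comp_add, Category.assoc, inl_fst_assoc,
    inl_snd_assoc, inr_fst_assoc, inr_snd_assoc, zero_comp, comp_zero, add_zero, zero_add]
  rw [← CategoryTheory.Functor.map_comp, ← CategoryTheory.Functor.map_comp,
    ← CategoryTheory.Functor.map_add, total, CategoryTheory.Functor.map_id]

lemma mapSumInv_mapSum (F G : Fam P) : mapSumInv Φ F G ≫ mapSum Φ F G = 𝟙 _ := by
  rw [mapSum, mapSumInv]
  simp only [Preadditive.add_comp, Preadditive.comp_add, Category.assoc]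
  simp only [← CategoryTheory.Functor.map_comp_assoc, inl_fst, inl_snd, inr_fst, inr_snd,
    CategoryTheory.Functor.map_id, CategoryTheory.Functor.map_zero, zero_comp, comp_zero,
    add_zero, zero_add, Category.id_comp, total]

lemma mapSum_homog {a : A.F.ι ⊕ B.F.ι → ℤ} :
    Homog (F := (Fam.mapF Φ).obj (Fam.sum A.F B.F))
      (G := Fam.sum ((Fam.mapF Φ).obj A.F) ((Fam.mapF Φ).obj B.F)) a a 0
      (mapSum Φ A.F B.F) := by
  have h1 : Homog (F := Fam.sum A.F B.F) a (fun i => a (Sum.inl i)) 0 (fst A.F B.F) := by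
    rintro (i | i) j hne
    · rw [fst_m_inl] at hne
      by_cases hij : i = j
      · subst hij; simp
      · exact absurd (id_m_ne _ hij) hne
    · exact absurd (fst_m_inr i j) hne
  have h2 : Homog (F := Fam.sum A.F B.F) a (fun i => a (Sum.inr i)) 0 (snd A.F B.F) := by
    rintro (i | i) j hne
    · exact absurd (snd_m_inl i j) hne
    · rw [snd_m_inr] at hne
      by_cases hij : i = j
      · subst hij; simp
      · exact absurd (id_m_ne _ hij) hne
  have h3 : Homog (F := (Fam.mapF Φ).obj A.F)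
      (G := Fam.sum ((Fam.mapF Φ).obj A.F) ((Fam.mapF Φ).obj B.F)) (fun i => a (Sum.inl i))
      a 0 (inl _ _) :=
    Homog.diag (G := Fam.sum ((Fam.mapF Φ).obj A.F) ((Fam.mapF Φ).obj B.F))
      fun i => (add_zero _).symm
  have h4 : Homog (F := (Fam.mapF Φ).obj B.F)
      (G := Fam.sum ((Fam.mapF Φ).obj A.F) ((Fam.mapF Φ).obj B.F)) (fun i => a (Sum.inr i))
      a 0 (inr _ _) :=
    Homog.diag (G := Fam.sum ((Fam.mapF Φ).obj A.F) ((Fam.mapF Φ).obj B.F))
      fun i => (add_zero _).symm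
  exact ((h1.mapF Φ).comp' h3 (by norm_num)).add ((h2.mapF Φ).comp' h4 (by norm_num))

lemma mapSumInv_homog {a : A.F.ι ⊕ B.F.ι → ℤ} :
    Homog (G := (Fam.mapF Φ).obj (Fam.sum A.F B.F))
      (F := Fam.sum ((Fam.mapF Φ).obj A.F) ((Fam.mapF Φ).obj B.F)) a a 0
      (mapSumInv Φ A.F B.F) := by
  have h1 : Homog (F := Fam.sum ((Fam.mapF Φ).obj A.F) ((Fam.mapF Φ).obj B.F)) a
      (fun i => a (Sum.inl i)) 0 (fst _ _) := by
    rintro (i | i) j hne
    · rw [fst_m_inl] at hne
      by_cases hij : i = j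
      · subst hij; exact (add_zero _).symm
      · exact absurd (id_m_ne _ hij) hne
    · exact absurd (fst_m_inr i j) hne
  have h2 : Homog (F := Fam.sum ((Fam.mapF Φ).obj A.F) ((Fam.mapF Φ).obj B.F)) a
      (fun i => a (Sum.inr i)) 0 (snd _ _) := by
    rintro (i | i) j hne
    · exact absurd (snd_m_inl i j) hne
    · rw [snd_m_inr] at hne
      by_cases hij : i = j
      · subst hij; exact (add_zero _).symm
      · exact absurd (id_m_ne _ hij) hne
  have h3 : Homog (F := A.F) (G := Fam.sum A.F B.F) (fun i => a (Sum.inl i)) a 0 (inl _ _) :=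
    Homog.diag (G := Fam.sum A.F B.F) fun i => (add_zero _).symm
  have h4 : Homog (F := B.F) (G := Fam.sum A.F B.F) (fun i => a (Sum.inr i)) a 0 (inr _ _) :=
    Homog.diag (G := Fam.sum A.F B.F) fun i => (add_zero _).symm
  exact (h1.comp' (h3.mapF Φ) (by norm_num)).add (h2.comp' (h4.mapF Φ) (by norm_num))

lemma mapSum_cD (F G : Fam P) (dF : F ⟶ F) (dG : G ⟶ G) (f : F ⟶ G) :
    (Fam.mapF Φ).map (cD dF dG f) ≫ mapSum Φ F G =
      mapSum Φ F G ≫ cD ((Fam.mapF Φ).map dF) ((Fam.mapF Φ).map dG) ((Fam.mapF Φ).map f) := by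
  rw [mapSum, Preadditive.comp_add, Preadditive.add_comp]
  rw [← CategoryTheory.Functor.map_comp_assoc, ← CategoryTheory.Functor.map_comp_assoc,
    cD_fst, cD_snd, Category.assoc, Category.assoc, inl_cD, inr_cD]
  simp only [CategoryTheory.Functor.map_add, CategoryTheory.Functor.map_neg,
    CategoryTheory.Functor.map_comp, Preadditive.comp_add, Preadditive.add_comp,
    Preadditive.comp_neg, Preadditive.neg_comp, Category.assoc]
  abel

/-- The image of a cone is the cone of the image. -/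
noncomputable def mapConeIso (f : A ⟶ B) :
    (mapF Φ).obj (cone f) ≅ cone ((mapF Φ).map f) := by
  refine isoMk (A := (mapF Φ).obj (cone f)) (B := cone ((mapF Φ).map f))
    ⟨mapSum Φ A.F B.F, mapSum_homog Φ, mapSum_cD Φ A.F B.F A.d B.d f.f⟩
    ⟨mapSumInv Φ A.F B.F, mapSumInv_homog Φ, ?_⟩ (mapSum_mapSumInv Φ A.F B.F)
    (mapSumInv_mapSum Φ A.F B.F)
  change cD ((Fam.mapF Φ).map A.d) ((Fam.mapF Φ).map B.d) ((Fam.mapF Φ).map f.f) ≫
    mapSumInv Φ A.F B.F = mapSumInv Φ A.F B.F ≫ (Fam.mapF Φ).map (cD A.d B.d f.f)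
  have h1 := mapSum_cD Φ A.F B.F A.d B.d f.f
  have h2 := congrArg (fun t => mapSumInv Φ A.F B.F ≫ t ≫ mapSumInv Φ A.F B.F) h1
  simp only [Category.assoc] at h2
  rw [mapSum_mapSumInv, Category.comp_id, ← Category.assoc (mapSumInv Φ A.F B.F),
    mapSumInv_mapSum, Category.id_comp] at h2
  exact h2.symm

lemma mapConeIso_hom_f (f : A ⟶ B) : (mapConeIso Φ f).hom.f = mapSum Φ A.F B.F := rfl

/-- The image of a cone triangle. -/
noncomputable def mapConeTriIso (f : A ⟶ B) :
    (mapF Φ).mapTriangle.obj (coneTri f) ≅ coneTri ((mapF Φ).map f) := by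
  refine Triangle.isoMk _ _ (Iso.refl _) (Iso.refl _) (mapConeIso Φ f) ?_ ?_ ?_
  · apply DG.hom_ext
    change (Fam.mapF Φ).map f.f ≫ 𝟙 _ = 𝟙 _ ≫ (Fam.mapF Φ).map f.f
    rw [Category.comp_id, Category.id_comp]
  · apply DG.hom_ext
    change (Fam.mapF Φ).map (inr A.F B.F) ≫ mapSum Φ A.F B.F = 𝟙 _ ≫ inr _ _
    rw [mapSum, Preadditive.comp_add, ← CategoryTheory.Functor.map_comp_assoc,
      ← CategoryTheory.Functor.map_comp_assoc, inr_fst, inr_snd,
      CategoryTheory.Functor.map_zero, CategoryTheory.Functor.map_id, zero_comp, zero_add]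
  · apply DG.hom_ext
    change ((Fam.mapF Φ).map (fst A.F B.F) ≫ 𝟙 _) ≫ 𝟙 _ = mapSum Φ A.F B.F ≫ fst _ _
    rw [mapSum, Preadditive.add_comp]
    simp only [Category.assoc, inl_fst, inr_fst, comp_zero, add_zero, Category.comp_id]

end

end DG

namespace T

section
variable (Φ : P ⥤ P') [Φ.Additive]

open DG

/-- The image of a cone triangle in the homotopy category. -/
noncomputable def mapConeTriTIso {A B : DG P} (f : A ⟶ B) :
    (mapT Φ).mapTriangle.obj (coneTriT f) ≅ coneTriT ((DG.mapF Φ).map f) :=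
  (Functor.mapTriangleCompIso Q (mapT Φ)).symm.app (coneTri f) ≪≫
    (Functor.mapTriangleIso (QMapIso Φ)).app (coneTri f) ≪≫
    (Functor.mapTriangleCompIso (DG.mapF Φ) Q).app (coneTri f) ≪≫
    (Q (P := P')).mapTriangle.mapIso (mapConeTriIso Φ f)

instance : (mapT Φ).IsTriangulated where
  map_distinguished X hX := by
    obtain ⟨A, B, f, ⟨e⟩⟩ := hX
    exact isomorphic_distinguished _ (coneTriT_distinguished ((DG.mapF Φ).map f)) _
      ((mapT Φ).mapTriangle.mapIso e ≪≫ mapConeTriTIso Φ f)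

end

end T

end Pool.Agent.H75.TT
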