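import Pool.Agent.H75.TT.Coprod
import Pool.Agent.H86.TT.MapTri
import Pool.Agent.H86.TT.MapMon

/-!
A criterion for the preservation of coproducts; the induced functors preserve coproducts and are
geometric.
-/

open CategoryTheory CategoryTheory.Limits CategoryTheory.Pretriangulated MonoidalCategory

namespace Pool.Agent.H75.TT

open Fam

variable {P P' : Type} [Category.{0} P] [Preadditive P] [Category.{0} P'] [Preadditive P']

namespace T

/-- Transport of the universal property of a coproduct. -/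
noncomputable def isColimitOfSigma {α : Type} (B : α → DG P') (X : α → T P') (Y : T P')
    (x : ∀ a, X a ⟶ Y) (e : ∀ a, (Q.obj (B a) : T P') ≅ X a)
    (E : (Q.obj (DG.sigma B) : T P') ≅ Y)
    (h : ∀ a, Q.map (DG.inc B a) ≫ E.hom = (e a).hom ≫ x a) :
    IsColimit (Cofan.mk Y x : Cofan X) := by
  have hB := isColimitSigCofan B
  have fac : ∀ (c : Cofan fun a => (Q.obj (B a) : T P')) (a : α),
      Q.map (DG.inc B a) ≫ hB.desc c = c.inj a := fun c a => hB.fac c ⟨a⟩
  refine Cofan.IsColimit.mk _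
    (fun s => E.inv ≫ hB.desc (Cofan.mk s.pt fun a => (e a).hom ≫ s.inj a)) ?_ ?_
  · intro s a
    have h1 : x a ≫ E.inv = (e a).inv ≫ Q.map (DG.inc B a) := by
      rw [Iso.comp_inv_eq, Category.assoc, h, Iso.inv_hom_id_assoc]
    change x a ≫ E.inv ≫ hB.desc (Cofan.mk s.pt fun a => (e a).hom ≫ s.inj a) = s.inj a
    rw [← Category.assoc, h1, Category.assoc, fac]
    exact Iso.inv_hom_id_assoc _ _
  · intro s m hm
    have h2 : E.hom ≫ m = hB.desc (Cofan.mk s.pt fun a => (e a).hom ≫ s.inj a) := by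
      refine hB.uniq (Cofan.mk s.pt fun a => (e a).hom ≫ s.inj a) (E.hom ≫ m) ?_
      rintro ⟨a⟩
      change Q.map (DG.inc B a) ≫ E.hom ≫ m = (e a).hom ≫ s.inj a
      rw [← Category.assoc, h, Category.assoc]
      exact congrArg (fun t => (e a).hom ≫ t) (hm a)
    rw [← h2, Iso.inv_hom_id_assoc]

/-- A functor which sends the coproducts of semi-free complexes to coproducts preserves
coproducts. -/
theorem preservesColimits_of_sigma (G : T P ⥤ T P')
    (h : ∀ (α : Type) (A : α → DG P), ∃ (B : α → DG P')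
      (e : ∀ a, (Q.obj (B a) : T P') ≅ G.obj (Q.obj (A a)))
      (E : (Q.obj (DG.sigma B) : T P') ≅ G.obj (Q.obj (DG.sigma A))),
      ∀ a, Q.map (DG.inc B a) ≫ E.hom = (e a).hom ≫ G.map (Q.map (DG.inc A a)))
    (J : Type) : PreservesColimitsOfShape (Discrete J) G := by
  refine ⟨fun {K} => ?_⟩
  have e : Discrete.functor (fun a => (Q.obj (K.obj ⟨a⟩).as : T P)) ≅ K :=
    Discrete.natIsoFunctor.symm
  suffices hs : PreservesColimit
      (Discrete.functor (fun a => (Q.obj (K.obj ⟨a⟩).as : T P))) G from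
    preservesColimit_of_iso_diagram G e
  obtain ⟨B, e, E, hE⟩ := h J fun a => (K.obj ⟨a⟩).as
  refine preservesColimit_of_preserves_colimit_cocone
    (isColimitSigCofan fun a => (K.obj ⟨a⟩).as) ?_
  exact (isColimitMapCoconeCofanMkEquiv G _ _).symm
    (isColimitOfSigma B (fun a => G.obj (Q.obj (K.obj ⟨a⟩).as)) _ _ e E hE)

end T

section map

variable (Φ : P ⥤ P') [Φ.Additive]

namespace Fam

lemma mapF_inc {α : Type} (F : α → Fam P) (a : α) :
    (mapF Φ).map (inc F a) = inc (fun a => (mapF Φ).obj (F a)) a := by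
  ext i p
  change Φ.map ((inc F a).m i p) = (inc (fun a => (mapF Φ).obj (F a)) a).m i p
  have h1 : ∀ p, (inc F a).m i p = (𝟙 (F a) ≫ inc F a).m i p := fun p => by
    rw [Category.id_comp]
  have h2 : ∀ p, (inc (fun a => (mapF Φ).obj (F a)) a).m i p =
      (𝟙 ((mapF Φ).obj (F a)) ≫ inc (fun a => (mapF Φ).obj (F a)) a).m i p := fun p => by
    rw [Category.id_comp]
  rw [h1, h2]
  by_cases h : p.1 = a
  · obtain ⟨b, j⟩ := p
    obtain rfl : b = a := h
    rw [comp_inc_m]
    refine Eq.trans ?_ (comp_inc_m (fun a => (mapF Φ).obj (F a)) b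
      (𝟙 ((mapF Φ).obj (F b))) i j).symm
    rw [← CategoryTheory.Functor.map_id]
    rfl
  · rw [comp_inc_m_ne F a _ i p h, CategoryTheory.Functor.map_zero]
    exact (comp_inc_m_ne (fun a => (mapF Φ).obj (F a)) a _ i p h).symm

lemma mapF_desc {α : Type} (F : α → Fam P) {H : Fam P} (f : ∀ a, F a ⟶ H) :
    (mapF Φ).map (desc F f) = desc (fun a => (mapF Φ).obj (F a)) fun a => (mapF Φ).map (f a) := by
  ext p k
  rfl

end Fam

namespace DG

variable {α : Type} (A : α → DG P)

/-- The induced functor on complexes commutes with coproducts. -/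
noncomputable def mapSigmaIso :
    sigma (fun a => (mapF Φ).obj (A a)) ≅ (mapF Φ).obj (sigma A) :=
  idIso (F := Fam.sigma fun a => (Fam.mapF Φ).obj (A a).F)
    (a := fun p => (A p.1).deg p.2) (a' := fun p => (A p.1).deg p.2) (fun _ => rfl) (by
      change sigD (fun a => (mapF Φ).obj (A a)) = (Fam.mapF Φ).map (sigD A)
      rw [sigD, sigD, Fam.mapF_desc]
      congr 1
      funext a
      rw [CategoryTheory.Functor.map_comp, Fam.mapF_inc]
      rfl)

lemma inc_mapSigmaIso (a : α) :
    inc (fun a => (mapF Φ).obj (A a)) a ≫ (mapSigmaIso Φ A).hom = (mapF Φ).map (inc A a) := by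
  apply DG.hom_ext
  change Fam.inc (fun a => (Fam.mapF Φ).obj (A a).F) a ≫ 𝟙 _ =
    (Fam.mapF Φ).map (Fam.inc (fun a => (A a).F) a)
  rw [Category.comp_id, Fam.mapF_inc]

end DG

namespace T

/-- The induced functor preserves coproducts. -/
instance mapT_preserves (J : Type) : PreservesColimitsOfShape (Discrete J) (mapT Φ) := by
  refine preservesColimits_of_sigma (mapT Φ) (fun α A => ?_) J
  refine ⟨fun a => (DG.mapF Φ).obj (A a), fun a => Iso.refl _,
    Q.mapIso (DG.mapSigmaIso Φ A), fun a => ?_⟩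
  change Q.map (DG.inc (fun a => (DG.mapF Φ).obj (A a)) a) ≫
    Q.map (DG.mapSigmaIso Φ A).hom = 𝟙 _ ≫ Q.map ((DG.mapF Φ).map (DG.inc A a))
  rw [← Q.map_comp, DG.inc_mapSigmaIso, Category.id_comp]

lemma mapT_exact : IsExactFun (mapT Φ) := ⟨inferInstance, inferInstance⟩

end T

end map

end Pool.Agent.H75.TT
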