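import Pool.Agent.H86.TT.Contr

/-!
Functors on families, complexes and homotopy categories induced by additive functors.
-/

open CategoryTheory CategoryTheory.Limits

namespace Pool.Agent.H75.TT

variable {P P' P'' : Type} [Category.{0} P] [Preadditive P] [Category.{0} P'] [Preadditive P']
  [Category.{0} P''] [Preadditive P'']

namespace Fam

section
variable (Φ : P ⥤ P') [Φ.Additive]

/-- The functor on families induced by an additive functor. -/
@[simps]
noncomputable def mapF : Fam P ⥤ Fam P' where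
  obj F := ⟨F.ι, fun i => Φ.obj (F.X i)⟩
  map {F G} f :=
    { m := fun i j => Φ.map (f.m i j)
      fin := fun i => (f.fin i).subset fun j hj => by
        intro h0
        exact hj (by rw [h0, Functor.map_zero]) }
  map_id F := by
    ext i j
    by_cases h : i = j
    · subst h
      change Φ.map ((𝟙 F : F ⟶ F).m i i) = _
      rw [id_m_self, Φ.map_id]
      exact (id_m_self (⟨F.ι, fun i => Φ.obj (F.X i)⟩ : Fam P') i).symm
    · change Φ.map ((𝟙 F : F ⟶ F).m i j) = _
      rw [id_m_ne F h, Functor.map_zero]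
      exact (id_m_ne (⟨F.ι, fun i => Φ.obj (F.X i)⟩ : Fam P') h).symm
  map_comp {F G H} f g := by
    ext i k
    change Φ.map ((f ≫ g).m i k) = _
    rw [comp_m_supp, Functor.map_sum, comp_m_sum (F := ⟨F.ι, fun i => Φ.obj (F.X i)⟩)
      (G := ⟨G.ι, fun i => Φ.obj (G.X i)⟩) (H := ⟨H.ι, fun i => Φ.obj (H.X i)⟩) _ _ i k
      (Fam.Hom.supp (F := F) (G := G) f i)]
    · exact Finset.sum_congr rfl fun j _ => Φ.map_comp _ _
    · intro j hj
      rw [Hom.mem_supp]
      intro h0
      apply hj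
      change Φ.map (f.m i j) = 0
      rw [h0, Functor.map_zero]

instance : (mapF Φ).Additive where
  map_add := by
    intro F G f g
    ext i j
    exact Φ.map_add

lemma mapF_m {F G : Fam P} (f : F ⟶ G) (i : F.ι) (j : G.ι) :
    ((mapF Φ).map f).m i j = Φ.map (f.m i j) := rfl

lemma Homog.mapF {F G : Fam P} {a : F.ι → ℤ} {b : G.ι → ℤ} {n : ℤ} {f : F ⟶ G}
    (hf : Homog a b n f) :
    Homog (F := (mapF Φ).obj F) (G := (mapF Φ).obj G) a b n ((Fam.mapF Φ).map f) := by
  intro i j hne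
  apply hf i j
  intro h0
  apply hne
  change Φ.map (f.m i j) = 0
  rw [h0, Functor.map_zero]

end

end Fam

open Fam

namespace DG

section
variable (Φ : P ⥤ P') [Φ.Additive]

/-- The functor on complexes induced by an additive functor, on objects. -/
@[simps]
noncomputable def mapObj (A : DG P) : DG P' where
  F := (Fam.mapF Φ).obj A.F
  deg := A.deg
  d := (Fam.mapF Φ).map A.d
  hd := A.hd.mapF Φ
  dd := by rw [← Functor.map_comp, A.dd, Functor.map_zero]
  wf := by
    refine Subrelation.wf (h₁ := ?_) A.wf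
    intro j i h h0
    apply h
    change Φ.map (A.d.m i j) = 0
    rw [h0, Functor.map_zero]

/-- The functor on complexes induced by an additive functor. -/
@[simps]
noncomputable def mapF : DG P ⥤ DG P' where
  obj A := mapObj Φ A
  map {A B} f :=
    { f := (Fam.mapF Φ).map f.f
      hf := f.hf.mapF Φ
      comm := by
        change (Fam.mapF Φ).map A.d ≫ (Fam.mapF Φ).map f.f
          = (Fam.mapF Φ).map f.f ≫ (Fam.mapF Φ).map B.d
        rw [← Functor.map_comp, f.comm, Functor.map_comp] }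
  map_id A := by
    apply DG.hom_ext
    exact (Fam.mapF Φ).map_id A.F
  map_comp {A B C} f g := by
    apply DG.hom_ext
    exact (Fam.mapF Φ).map_comp f.f g.f

instance : (mapF Φ).Additive where
  map_add := by
    intro A B f g
    apply DG.hom_ext
    exact (Fam.mapF Φ).map_add

/-- The commutation with the shift. -/
noncomputable def mapShIso (n : ℤ) (A : DG P) : mapObj Φ (sh n A) ≅ sh n (mapObj Φ A) :=
  idIso (F := (Fam.mapF Φ).obj A.F) (a := fun i => A.deg i - n) (a' := fun i => A.deg i - n)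
    (fun _ => rfl) (by
      change (Fam.mapF Φ).map ((n.negOnePow : ℤ) • A.d) = (n.negOnePow : ℤ) • (Fam.mapF Φ).map A.d
      rw [Functor.map_zsmul])

@[simp] lemma mapShIso_hom_f (n : ℤ) (A : DG P) :
    (mapShIso Φ n A).hom.f = 𝟙 ((Fam.mapF Φ).obj A.F) := rfl
@[simp] lemma mapShIso_inv_f (n : ℤ) (A : DG P) :
    (mapShIso Φ n A).inv.f = 𝟙 ((Fam.mapF Φ).obj A.F) := rfl

noncomputable instance : (mapF Φ).CommShift ℤ where
  commShiftIso n := NatIso.ofComponents (fun A => mapShIso Φ n A) (fun {A B} f => by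
    apply DG.hom_ext
    exact (Category.comp_id ((Fam.mapF Φ).map f.f)).trans
      (Category.id_comp ((Fam.mapF Φ).map f.f)).symm)
  commShiftIso_zero := by
    apply Iso.ext
    apply NatTrans.ext
    funext A
    apply DG.hom_ext
    rw [Functor.CommShift.isoZero_hom_app]
    change 𝟙 ((Fam.mapF Φ).obj A.F) = (Fam.mapF Φ).map (𝟙 A.F) ≫ 𝟙 ((Fam.mapF Φ).obj A.F)
    rw [CategoryTheory.Functor.map_id, Category.comp_id]
  commShiftIso_add n m := by
    apply Iso.ext
    apply NatTrans.ext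
    funext A
    apply DG.hom_ext
    rw [Functor.CommShift.isoAdd_hom_app]
    change 𝟙 ((Fam.mapF Φ).obj A.F) = (Fam.mapF Φ).map (𝟙 A.F) ≫ 𝟙 ((Fam.mapF Φ).obj A.F) ≫
      𝟙 ((Fam.mapF Φ).obj A.F) ≫ 𝟙 ((Fam.mapF Φ).obj A.F)
    rw [CategoryTheory.Functor.map_id]
    simp

lemma commShiftIso_hom_f (n : ℤ) (A : DG P) :
    (((mapF Φ).commShiftIso n).hom.app A).f = 𝟙 ((Fam.mapF Φ).obj A.F) := rfl

lemma commShiftIso_inv_f (n : ℤ) (A : DG P) :
    (((mapF Φ).commShiftIso n).inv.app A).f = 𝟙 ((Fam.mapF Φ).obj A.F) := rfl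

lemma Homotopic.mapF {A B : DG P} {f g : A ⟶ B} (h : Homotopic f g) :
    Homotopic ((mapF Φ).map f) ((mapF Φ).map g) := by
  obtain ⟨h, hh, e⟩ := h
  refine ⟨(Fam.mapF Φ).map h, hh.mapF Φ, ?_⟩
  change (Fam.mapF Φ).map f.f = (Fam.mapF Φ).map g.f + (Fam.mapF Φ).map A.d ≫ (Fam.mapF Φ).map h
    + (Fam.mapF Φ).map h ≫ (Fam.mapF Φ).map B.d
  rw [e, Functor.map_add, Functor.map_add, Functor.map_comp, Functor.map_comp]

end

end DG

namespace T

section
variable (Φ : P ⥤ P') [Φ.Additive]

lemma map_aux : ∀ (A B : DG P) (f g : A ⟶ B), DG.homRel P f g →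
    (DG.mapF Φ ⋙ Q).map f = (DG.mapF Φ ⋙ Q).map g := by
  intro A B f g h
  exact CategoryTheory.Quotient.sound _ (DG.Homotopic.mapF Φ h)

/-- The functor on homotopy categories induced by an additive functor. -/
noncomputable def mapT : T P ⥤ T P' := CategoryTheory.Quotient.lift (DG.homRel P) (DG.mapF Φ ⋙ Q) (map_aux Φ)

noncomputable instance : (mapT Φ).CommShift ℤ :=
  inferInstanceAs ((CategoryTheory.Quotient.lift (DG.homRel P) (DG.mapF Φ ⋙ Q) (map_aux Φ)).CommShift ℤ)

lemma mapT_obj (A : DG P) : (mapT Φ).obj (Q.obj A) = Q.obj (DG.mapObj Φ A) := rfl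

lemma mapT_map {A B : DG P} (f : A ⟶ B) :
    (mapT Φ).map (Q.map f) = Q.map ((DG.mapF Φ).map f) := rfl

/-- The defining isomorphism (identity). -/
noncomputable def QMapIso : Q ⋙ mapT Φ ≅ DG.mapF Φ ⋙ Q :=
  CategoryTheory.Quotient.lift.isLift (DG.homRel P) (DG.mapF Φ ⋙ Q) (map_aux Φ)

instance : NatTrans.CommShift (QMapIso Φ).hom ℤ :=
  inferInstanceAs (NatTrans.CommShift
    (CategoryTheory.Quotient.lift.isLift (DG.homRel P) (DG.mapF Φ ⋙ Q) (map_aux Φ)).hom ℤ)

instance : (mapT Φ).Additive where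
  map_add := by
    intro A B f g
    obtain ⟨f, rfl⟩ := (Q (P := P)).map_surjective f
    obtain ⟨g, rfl⟩ := (Q (P := P)).map_surjective g
    rw [← Functor.map_add, mapT_map, mapT_map, mapT_map, Functor.map_add, Functor.map_add]
    rfl

end

end T

end Pool.Agent.H75.TT
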