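import Pool.Agent.H75.TT.DG

/-!
A semi-free complex in which all cycles are boundaries is contractible.
-/

open CategoryTheory CategoryTheory.Limits

namespace Pool.Agent.H75.TT

namespace Fam

variable {P : Type} [Category.{0} P] [Preadditive P]

/-- The family with one member. -/
abbrev single (X : P) : Fam P := ⟨Unit, fun _ => X⟩

variable {F G H : Fam P}

/-- A row of a matrix. -/
def row (f : F ⟶ G) (i : F.ι) : single (F.X i) ⟶ G where
  m _ k := f.m i k
  fin _ := f.fin i

/-- A matrix with prescribed rows. -/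
def ofRows (R : ∀ i, single (F.X i) ⟶ G) : F ⟶ G where
  m i k := (R i).m () k
  fin i := (R i).fin ()

@[simp] lemma row_m (f : F ⟶ G) (i : F.ι) (u) (k : G.ι) : (row f i).m u k = f.m i k := rfl

@[simp] lemma ofRows_m (R : ∀ i, single (F.X i) ⟶ G) (i : F.ι) (k : G.ι) :
    (ofRows R).m i k = (R i).m () k := rfl

lemma row_ofRows (R : ∀ i, single (F.X i) ⟶ G) (i : F.ι) : row (ofRows R) i = R i := by
  ext u k; rfl

lemma row_comp (f : F ⟶ G) (g : G ⟶ H) (i : F.ι) : row (f ≫ g) i = row f i ≫ g := by
  ext u k; rfl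

lemma row_add (f g : F ⟶ G) (i : F.ι) : row (f + g) i = row f i + row g i := by
  ext u k; rfl

lemma row_sub (f g : F ⟶ G) (i : F.ι) : row (f - g) i = row f i - row g i := by
  ext u k; rfl

lemma ext_row {f g : F ⟶ G} (h : ∀ i, row f i = row g i) : f = g := by
  ext i k
  exact congrArg (fun t : single (F.X i) ⟶ G => t.m () k) (h i)

/-- Products only depend on the rows met by the support. -/
lemma comp_congr {f : F ⟶ G} {g g' : G ⟶ H} {i : F.ι}
    (h : ∀ j, f.m i j ≠ 0 → row g j = row g' j) : row f i ≫ g = row f i ≫ g' := by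
  ext u k
  rw [comp_m_supp, comp_m_supp]
  refine Finset.sum_congr rfl fun j hj => ?_
  rw [Hom.mem_supp] at hj
  have := congrArg (fun t : single (G.X j) ⟶ H => t.m () k) (h j hj)
  simp only [row_m] at this
  rw [this]

lemma Homog.row {a : F.ι → ℤ} {b : G.ι → ℤ} {n : ℤ} {f : F ⟶ G} (hf : Homog a b n f)
    (i : F.ι) : Homog (fun _ => a i) b n (row f i) := fun _ j hne => hf i j hne

end Fam

open Fam

namespace DG

variable {P : Type} [Category.{0} P] [Preadditive P]

section contr

variable (M : DG P)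

open Classical in
/-- One step of the recursive construction of a contraction. -/
noncomputable def contrStep (i : M.F.ι)
    (ih : ∀ j, M.d.m i j ≠ 0 → (single (M.F.X j) ⟶ M.F)) : single (M.F.X i) ⟶ M.F :=
  if hq : ∃ r : single (M.F.X i) ⟶ M.F, Homog (fun _ => M.deg i) M.deg (-1) r ∧
      row (𝟙 M.F) i - row M.d i ≫ ofRows (fun j => if hj : M.d.m i j ≠ 0 then ih j hj else 0)
        = r ≫ M.d
  then hq.choose else 0

/-- The rows of the contraction. -/
noncomputable def contrRows (i : M.F.ι) : single (M.F.X i) ⟶ M.F := M.wf.fix (contrStep M) i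

/-- The contraction. -/
noncomputable def contr : M.F ⟶ M.F := ofRows (contrRows M)

lemma contrRows_spec (i : M.F.ι)
    (h : ∃ r : single (M.F.X i) ⟶ M.F, Homog (fun _ => M.deg i) M.deg (-1) r ∧
      row (𝟙 M.F) i - row M.d i ≫ contr M = r ≫ M.d) :
    Homog (fun _ => M.deg i) M.deg (-1) (contrRows M i) ∧
      row (𝟙 M.F) i - row M.d i ≫ contr M = contrRows M i ≫ M.d := by
  classical
  have e1 : row M.d i ≫ ofRows (fun j => if hj : M.d.m i j ≠ 0 then contrRows M j else 0)
      = row M.d i ≫ contr M := by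
    refine comp_congr fun j hj => ?_
    rw [row_ofRows, contr, row_ofRows, dif_pos hj]
  have e2 : contrRows M i = contrStep M i (fun j _ => contrRows M j) := by
    rw [contrRows, WellFounded.fix_eq]
    rfl
  rw [← e1] at h ⊢
  rw [e2, contrStep, dif_pos h]
  exact h.choose_spec

/-- A semi-free complex in which all cycles are boundaries is contractible. -/
theorem contractible
    (H : ∀ (i : M.F.ι) (q : single (M.F.X i) ⟶ M.F),
      Homog (fun _ => M.deg i) M.deg 0 q → q ≫ M.d = 0 →
      ∃ r : single (M.F.X i) ⟶ M.F, Homog (fun _ => M.deg i) M.deg (-1) r ∧ q = r ≫ M.d) :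
    ∃ h : M.F ⟶ M.F, Homog M.deg M.deg (-1) h ∧ M.d ≫ h + h ≫ M.d = 𝟙 M.F := by
  have key : ∀ i, Homog (fun _ => M.deg i) M.deg (-1) (contrRows M i) ∧
      row (𝟙 M.F) i - row M.d i ≫ contr M = contrRows M i ≫ M.d := by
    intro i
    induction i using M.wf.induction with
    | _ i ih =>
    apply contrRows_spec
    apply H
    · refine ((Homog.id (F := M.F) (a := M.deg)).row i).sub ?_
      intro u k hne
      obtain ⟨j, h1, h2⟩ := comp_m_ne_zero _ _ _ _ hne
      have h3 := (ih j h1).1 () k h2
      have h4 := M.hd i j h1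
      simp only at h3
      rw [h3, h4]
      ring
    · rw [Preadditive.sub_comp, ← row_comp, Category.id_comp, Category.assoc]
      have e1 : row M.d i ≫ contr M ≫ M.d = row M.d i ≫ (𝟙 M.F - M.d ≫ contr M) := by
        refine comp_congr fun j hj => ?_
        rw [row_sub, row_comp, row_comp, (ih j hj).2, contr, row_ofRows]
      rw [e1, Preadditive.comp_sub, Category.comp_id, ← Category.assoc, ← row_comp, M.dd]
      have e2 : row (0 : M.F ⟶ M.F) i = 0 := by ext u k; rfl
      rw [e2, zero_comp, sub_zero, sub_self]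
  refine ⟨contr M, fun i j hne => (key i).1 () j hne, ?_⟩
  apply ext_row
  intro i
  have := (key i).2
  rw [row_add, row_comp, row_comp]
  have e3 : row (contr M) i = contrRows M i := row_ofRows _ i
  rw [e3, ← this]
  abel

end contr

/-- Contractible complexes are zero in the homotopy category. -/
theorem isZero_of_contraction (M : DG P) (h : M.F ⟶ M.F) (hh : Homog M.deg M.deg (-1) h)
    (e : M.d ≫ h + h ≫ M.d = 𝟙 M.F) : IsZero (T.Q.obj M) := by
  rw [IsZero.iff_id_eq_zero]
  have h1 : (T.Q (P := P)).map (𝟙 M) = (T.Q (P := P)).map (0 : M ⟶ M) := by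
    apply CategoryTheory.Quotient.sound
    refine ⟨h, hh, ?_⟩
    change 𝟙 M.F = 0 + M.d ≫ h + h ≫ M.d
    rw [zero_add, e]
  rw [← CategoryTheory.Functor.map_id, h1, CategoryTheory.Functor.map_zero]

/-- Conversely, a complex which is zero in the homotopy category is contractible. -/
theorem exists_contraction (M : DG P) (hM : IsZero (T.Q.obj M)) :
    ∃ h : M.F ⟶ M.F, Homog M.deg M.deg (-1) h ∧ M.d ≫ h + h ≫ M.d = 𝟙 M.F := by
  have h1 : (T.Q (P := P)).map (𝟙 M) = (T.Q (P := P)).map (0 : M ⟶ M) :=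
    hM.eq_of_src _ _
  have h2 := (Quotient.functor_map_eq_iff (homRel P) (𝟙 M) (0 : M ⟶ M)).1 h1
  obtain ⟨h, hh, e⟩ := h2
  refine ⟨h, hh, ?_⟩
  have e' : 𝟙 M.F = 0 + M.d ≫ h + h ≫ M.d := e
  rw [e', zero_add]

end DG

end Pool.Agent.H75.TT
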