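import Pool.Agent.H86.TT.Wt
import Pool.Agent.H86.TT.Map

/-!
Conservativity of `T PP ⥤ T C0 × T C` on all objects, and Nakayama for finite complexes.
-/

open CategoryTheory CategoryTheory.Limits MonoidalCategory

namespace Pool.Agent.H75.TT

variable {C : Type} [Category.{0} C] [Preadditive C] [MonoidalCategory C]
    [SymmetricCategory C]

namespace Fam

section lift

variable {S : TensorSub C} {F G H : Fam S.Cat}

lemma allS_mapF (f : F ⟶ G) : AllS S ((mapF (TensorSub.incl S)).map f) := fun i j => (f.m i j).mem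

/-- A matrix with entries in `S` is a matrix over `S.Cat`. -/
def liftS (g : (mapF (TensorSub.incl S)).obj F ⟶ (mapF (TensorSub.incl S)).obj G)
    (hg : AllS S g) : F ⟶ G where
  m i j := ⟨g.m i j, hg i j⟩
  fin i := (g.fin i).subset fun j hj => by
    intro h0
    apply hj
    apply TensorSub.hom_ext
    exact h0

lemma mapF_liftS (g : (mapF (TensorSub.incl S)).obj F ⟶ (mapF (TensorSub.incl S)).obj G)
    (hg : AllS S g) : (mapF (TensorSub.incl S)).map (liftS g hg) = g := by
  ext i j; rfl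

lemma mapF_injective {f g : F ⟶ G}
    (h : (mapF (TensorSub.incl S)).map f = (mapF (TensorSub.incl S)).map g) : f = g := by
  refine Fam.hom_ext fun i j => ?_
  apply TensorSub.hom_ext
  have := congrArg (fun t : (mapF (TensorSub.incl S)).obj F ⟶ (mapF (TensorSub.incl S)).obj G =>
    t.m i j) h
  exact this

lemma homog_liftS {a : F.ι → ℤ} {b : G.ι → ℤ} {n : ℤ}
    {g : (mapF (TensorSub.incl S)).obj F ⟶ (mapF (TensorSub.incl S)).obj G} (hg : AllS S g)
    (h : Homog (F := (mapF (TensorSub.incl S)).obj F) (G := (mapF (TensorSub.incl S)).obj G)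
      a b n g) : Homog a b n (liftS g hg) := fun i j hne => h i j fun h0 => hne (by
  apply TensorSub.hom_ext
  exact h0)

end lift

end Fam

open Fam

section cons

variable [MonoidalPreadditive C] (Pk : Pinch C)

/-- A contraction of the weight zero part, seen in `C`. -/
lemma exists_h0 (M : DG Pk.PP.Cat) (h0 : IsZero (T.Q.obj (DG.mapObj Pk.P0 M))) :
    ∃ h : (Fam.mapF Pk.P2).obj M.F ⟶ (Fam.mapF Pk.P2).obj M.F,
      AllC0 Pk h ∧ Homog (F := (Fam.mapF Pk.P2).obj M.F) (G := (Fam.mapF Pk.P2).obj M.F)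
        M.deg M.deg (-1) h ∧
      W Pk 0 ((Fam.mapF Pk.P2).map M.d) ≫ h + h ≫ W Pk 0 ((Fam.mapF Pk.P2).map M.d)
        = 𝟙 ((Fam.mapF Pk.P2).obj M.F) := by
  obtain ⟨h, hh, e⟩ := DG.exists_contraction _ h0
  refine ⟨(Fam.mapF (TensorSub.incl Pk.C0)).map h, allS_mapF h, ?_, ?_⟩
  · exact hh.mapF (TensorSub.incl Pk.C0)
  · have e' := congrArg (fun t => (Fam.mapF (TensorSub.incl Pk.C0)).map t) e
    simp only [CategoryTheory.Functor.map_add, CategoryTheory.Functor.map_comp,
      CategoryTheory.Functor.map_id] at e'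
    exact e'

/-- Conservativity: a complex over the pinched category which vanishes over `C0` (weight zero
part) and over `C` is zero. -/
theorem isZero_of_P0_P2 (M : DG Pk.PP.Cat) (h0 : IsZero (T.Q.obj (DG.mapObj Pk.P0 M)))
    (h2 : IsZero (T.Q.obj (DG.mapObj Pk.P2 M))) : IsZero (T.Q.obj M) := by
  obtain ⟨k0, k0C, k0h, k0e⟩ := exists_h0 Pk M h0
  obtain ⟨k, kh, ke⟩ := DG.exists_contraction _ h2
  have hdd : (Fam.mapF Pk.P2).map M.d ≫ (Fam.mapF Pk.P2).map M.d = 0 := by
    rw [← CategoryTheory.Functor.map_comp, M.dd, CategoryTheory.Functor.map_zero]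
  obtain ⟨h, hh, e⟩ := M.contractible (by
    intro i q hq hqd
    obtain ⟨r, hr, hrP, hrd⟩ := cycle_boundary (Pk := Pk)
      (X := (Fam.mapF Pk.P2).obj (single (M.F.X i)))
      (F := (Fam.mapF Pk.P2).obj M.F) (e := fun _ => M.deg i) (a := M.deg)
      (d := (Fam.mapF Pk.P2).map M.d) (h0 := k0) (h := k) (n := 0)
      (q := (Fam.mapF Pk.P2).map q)
      (inferInstanceAs (Finite Unit)) (allS_mapF M.d) (M.hd.mapF Pk.P2) hdd k0C k0h k0e kh ke
      (allS_mapF q) (hq.mapF Pk.P2) (by
        rw [← CategoryTheory.Functor.map_comp, hqd, CategoryTheory.Functor.map_zero])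
    refine ⟨liftS (S := Pk.PP) r hrP, ?_, ?_⟩
    · rw [zero_sub] at hr
      exact homog_liftS (F := single (M.F.X i)) (G := M.F) hrP hr
    · apply mapF_injective
      rw [CategoryTheory.Functor.map_comp, mapF_liftS]
      exact hrd)
  exact DG.isZero_of_contraction M h hh e

/-- Conservativity, for objects of the homotopy category. -/
theorem isZero_of_mapT (t : T Pk.PP.Cat) (h0 : IsZero ((T.mapT Pk.P0).obj t))
    (h2 : IsZero ((T.mapT Pk.P2).obj t)) : IsZero t :=
  isZero_of_P0_P2 Pk t.as h0 h2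

/-- Nakayama: a finite complex over the pinched category which vanishes over `C0` is zero. -/
theorem isZero_of_P0 (M : DG Pk.PP.Cat) (hM : Finite M.F.ι)
    (h0 : IsZero (T.Q.obj (DG.mapObj Pk.P0 M))) : IsZero (T.Q.obj M) := by
  obtain ⟨k0, k0C, k0h, k0e⟩ := exists_h0 Pk M h0
  have hdd : (Fam.mapF Pk.P2).map M.d ≫ (Fam.mapF Pk.P2).map M.d = 0 := by
    rw [← CategoryTheory.Functor.map_comp, M.dd, CategoryTheory.Functor.map_zero]
  obtain ⟨h, hh, hP, he⟩ := nakayama (Pk := Pk) (F := (Fam.mapF Pk.P2).obj M.F) (a := M.deg)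
    (d := (Fam.mapF Pk.P2).map M.d) (h0 := k0) hM (allS_mapF M.d) (M.hd.mapF Pk.P2) hdd
    k0C k0h k0e
  refine DG.isZero_of_contraction M (liftS (S := Pk.PP) h hP) ?_ ?_
  · exact homog_liftS (F := M.F) (G := M.F) hP hh
  · apply mapF_injective
    rw [CategoryTheory.Functor.map_add, CategoryTheory.Functor.map_comp,
      CategoryTheory.Functor.map_comp, mapF_liftS, CategoryTheory.Functor.map_id]
    exact he

end cons

end Pool.Agent.H75.TT
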