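import Pool.Agent.H75.TT.DG
import Pool.Agent.H85.TT.PP

/-!
Weights of matrices over a category with a weight structure: conservativity and Nakayama.
-/

open CategoryTheory CategoryTheory.Limits MonoidalCategory

namespace Pool.Agent.H75.TT

namespace Pinch

variable {C : Type} [Category.{0} C] [Preadditive C] [MonoidalCategory C]
    [SymmetricCategory C] {Pk : Pinch C}

variable (Pk) in
lemma ge_bd {X Y : C} (f : X ⟶ Y) : Pk.Ge (-(Pk.bd X Y : ℤ)) f := fun m hm => by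
  apply Pk.w_bd
  rw [lt_abs]
  right
  linarith

lemma Ge.eq_zero {X Y : C} {a : ℤ} {f : X ⟶ Y} (hf : Pk.Ge a f) (ha : (Pk.bd X Y : ℤ) < a) :
    f = 0 := by
  rw [← Pk.sum_w f]
  refine Finset.sum_eq_zero fun m hm => hf m ?_
  rw [Finset.mem_Icc] at hm
  linarith [hm.2]

lemma Ge.succ {X Y : C} {a : ℤ} {f : X ⟶ Y} (hf : Pk.Ge a f) (h : Pk.w a f = 0) :
    Pk.Ge (a + 1) f := fun m hm => by
  rcases eq_or_lt_of_le (Int.lt_add_one_iff.1 hm) with e | e
  · rw [e, h]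
  · exact hf m e

end Pinch

namespace Fam

variable {C : Type} [Category.{0} C] [Preadditive C] [MonoidalCategory C]
    [SymmetricCategory C] (Pk : Pinch C)

variable {F G H : Fam C}

/-! ### Matrices with entries in a tensor subcategory -/

/-- All entries are in `S`. -/
def AllS (S : TensorSub C) (f : F ⟶ G) : Prop := ∀ i j, f.m i j ∈ S.S _ _

section AllS

variable {S : TensorSub C}

lemma AllS.comp {f : F ⟶ G} {g : G ⟶ H} (hf : AllS S f) (hg : AllS S g) :
    AllS S (f ≫ g) := fun i k => by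
  rw [comp_m_supp]
  exact AddSubgroup.sum_mem _ fun j _ => S.comp_mem (hf i j) (hg j k)

lemma AllS.add {f g : F ⟶ G} (hf : AllS S f) (hg : AllS S g) : AllS S (f + g) :=
  fun i j => AddSubgroup.add_mem _ (hf i j) (hg i j)

lemma AllS.sub {f g : F ⟶ G} (hf : AllS S f) (hg : AllS S g) : AllS S (f - g) :=
  fun i j => AddSubgroup.sub_mem _ (hf i j) (hg i j)

variable (S) in
lemma allS_id (F : Fam C) : AllS S (𝟙 F) := fun i j => by
  by_cases h : i = j
  · subst h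
    rw [id_m_self]
    exact S.id_mem _
  · rw [id_m_ne F h]
    exact AddSubgroup.zero_mem _

end AllS

/-! ### Weights of matrices -/

/-- The weight `m` part of a matrix. -/
noncomputable def W (m : ℤ) (f : F ⟶ G) : F ⟶ G where
  m i j := Pk.w m (f.m i j)
  fin i := (f.fin i).subset fun j hj => by
    intro h0
    exact hj (by rw [h0, map_zero])

@[simp] lemma W_m (m : ℤ) (f : F ⟶ G) (i j) : (W Pk m f).m i j = Pk.w m (f.m i j) := rfl

lemma W_add (m : ℤ) (f g : F ⟶ G) : W Pk m (f + g) = W Pk m f + W Pk m g := by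
  ext i j; simp

lemma W_sub (m : ℤ) (f g : F ⟶ G) : W Pk m (f - g) = W Pk m f - W Pk m g := by
  ext i j; simp

/-- All weights of the entries are at least `a`. -/
def WGe (a : ℤ) (f : F ⟶ G) : Prop := ∀ i j, Pk.Ge a (f.m i j)

/-- All entries are in `C0`. -/
abbrev AllC0 (f : F ⟶ G) : Prop := AllS Pk.C0 f

variable {Pk}

lemma WGe.mono {a b : ℤ} {f : F ⟶ G} (h : WGe Pk a f) (hab : b ≤ a) : WGe Pk b f :=
  fun i j => (h i j).mono hab

lemma WGe.add {a : ℤ} {f g : F ⟶ G} (hf : WGe Pk a f) (hg : WGe Pk a g) : WGe Pk a (f + g) :=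
  fun i j => (hf i j).add (hg i j)

lemma WGe.neg {a : ℤ} {f : F ⟶ G} (hf : WGe Pk a f) : WGe Pk a (-f) :=
  fun i j => (hf i j).neg

lemma WGe.sub {a : ℤ} {f g : F ⟶ G} (hf : WGe Pk a f) (hg : WGe Pk a g) : WGe Pk a (f - g) :=
  fun i j => (hf i j).sub (hg i j)

lemma WGe.comp {a b : ℤ} {f : F ⟶ G} {g : G ⟶ H} (hf : WGe Pk a f) (hg : WGe Pk b g) :
    WGe Pk (a + b) (f ≫ g) := fun i k => by
  rw [comp_m_supp]
  exact Pinch.Ge.sum fun j _ => (hf i j).comp (hg j k)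

lemma wGe_W (m : ℤ) (f : F ⟶ G) : WGe Pk m (W Pk m f) := fun _ _ => Pinch.Ge.w le_rfl _

lemma W_W (m : ℤ) (f : F ⟶ G) : W Pk m (W Pk m f) = W Pk m f := by
  ext i j; exact Pk.w_self m _

lemma WGe.succ {a : ℤ} {f : F ⟶ G} (hf : WGe Pk a f) (h : W Pk a f = 0) :
    WGe Pk (a + 1) f := fun i j => (hf i j).succ (by
  have := congrArg (fun t : F ⟶ G => t.m i j) h
  simpa using this)

lemma W_comp {a b : ℤ} {f : F ⟶ G} {g : G ⟶ H} (hf : WGe Pk a f) (hg : WGe Pk b g) :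
    W Pk (a + b) (f ≫ g) = W Pk a f ≫ W Pk b g := by
  ext i k
  rw [W_m, comp_m_supp, map_sum, comp_m_sum _ _ i k (Hom.supp f i)]
  · exact Finset.sum_congr rfl fun j _ => Pinch.w_comp_of_ge (hf i j) (hg j k) rfl
  · intro j hj
    rw [Hom.mem_supp]
    intro h0
    exact hj (by rw [W_m, h0, map_zero])

lemma AllC0.wGe {f : F ⟶ G} (hf : AllC0 Pk f) : WGe Pk 0 f :=
  fun i j => Pinch.ge_C0 (hf i j)

lemma AllC0.W_eq {f : F ⟶ G} (hf : AllC0 Pk f) : W Pk 0 f = f := by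
  ext i j; exact Pk.C0_w (hf i j)

section PPsec

variable [MonoidalPreadditive C]

variable (Pk) in
/-- All entries are in the pinched category. -/
abbrev AllPP (f : F ⟶ G) : Prop := AllS Pk.PP f

lemma AllPP.wGe {f : F ⟶ G} (hf : AllPP Pk f) : WGe Pk 0 f := fun i j => (hf i j).1

lemma AllPP.W_mem {f : F ⟶ G} (hf : AllPP Pk f) : AllC0 Pk (W Pk 0 f) := fun i j => (hf i j).2

lemma AllPP.of {f : F ⟶ G} (h1 : WGe Pk 0 f) (h2 : AllC0 Pk (W Pk 0 f)) : AllPP Pk f :=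
  fun i j => ⟨h1 i j, h2 i j⟩

lemma AllC0.allPP {f : F ⟶ G} (hf : AllC0 Pk f) : AllPP Pk f :=
  fun i j => Pinch.C0_le_PP (hf i j)

lemma AllPP.of_ge_one {f : F ⟶ G} (hf : WGe Pk 1 f) : AllPP Pk f :=
  fun i j => Pinch.mem_PP_of_ge_one (hf i j)

end PPsec

variable (Pk) in
lemma allC0_id (F : Fam C) : AllC0 Pk (𝟙 F) := allS_id Pk.C0 F

lemma Homog_W {a : F.ι → ℤ} {b : G.ι → ℤ} {n : ℤ} {f : F ⟶ G} (hf : Homog a b n f) (m : ℤ) :
    Homog a b n (W Pk m f) := fun i j hne => hf i j fun h0 => hne (by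
  rw [W_m, h0, map_zero])

/-! ### Conservativity: cycles are boundaries -/

section cons

variable [MonoidalPreadditive C]

variable {X : Fam C} {e : X.ι → ℤ} {a : F.ι → ℤ} {d h0 h : F ⟶ F}

/-- Improve the lower bound of the weights. -/
lemma improve (hd : WGe Pk 0 d)
    (h0C : AllC0 Pk h0) (h0h : Homog a a (-1) h0)
    (hdd : d ≫ d = 0) (hc : W Pk 0 d ≫ h0 + h0 ≫ W Pk 0 d = 𝟙 F) {n : ℤ} {q : X ⟶ F}
    (hq : WGe Pk 0 q) (hdh : Homog a a 1 d) :
    ∀ (N : ℕ) (r : X ⟶ F), Homog e a n r → WGe Pk (-(N : ℤ)) r → r ≫ d = q →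
      ∃ r' : X ⟶ F, Homog e a n r' ∧ WGe Pk 0 r' ∧ r' ≫ d = q := by
  intro N
  induction N with
  | zero =>
    intro r hr hw hrd
    exact ⟨r, hr, by simpa using hw, hrd⟩
  | succ N ih =>
    intro r hr hw hrd
    set m : ℤ := -((N + 1 : ℕ) : ℤ) with hm
    have hm0 : m < 0 := by rw [hm]; push_cast; linarith [Int.natCast_nonneg N]
    have h1 : W Pk m r ≫ W Pk 0 d = 0 := by
      rw [← W_comp hw hd, add_zero, hrd]
      ext i j
      exact hq i j m hm0
    have h2 : W Pk m r = (W Pk m r ≫ h0) ≫ W Pk 0 d := by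
      conv_lhs => rw [← Category.comp_id (W Pk m r), ← hc]
      rw [Preadditive.comp_add, ← Category.assoc, h1, zero_comp, zero_add, Category.assoc]
    set s := W Pk m r ≫ h0 with hs
    have hsw : WGe Pk m s := by
      have := (wGe_W (Pk := Pk) m r).comp (AllC0.wGe h0C)
      rwa [add_zero] at this
    have hsh : Homog e a (n - 1) s := (Homog_W hr m).comp' h0h (by ring)
    have hsd : WGe Pk m (s ≫ d) := by
      have := hsw.comp hd
      rwa [add_zero] at this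
    have hWs : W Pk m s = s := by
      have := W_comp (Pk := Pk) (wGe_W (Pk := Pk) m r) (AllC0.wGe h0C)
      rw [add_zero, W_W, (AllC0.W_eq h0C)] at this
      exact this
    have h3 : W Pk m (s ≫ d) = W Pk m r := by
      have := W_comp hsw hd
      rw [add_zero, hWs] at this
      rw [this]
      exact h2.symm
    refine ih (r - s ≫ d) (hr.sub (hsh.comp' hdh (by ring))) ?_ ?_
    · have : WGe Pk (m + 1) (r - s ≫ d) := (hw.sub hsd).succ (by rw [W_sub, h3, sub_self])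
      have e1 : m + 1 = -(N : ℤ) := by rw [hm]; push_cast; ring
      rwa [e1] at this
    · rw [Preadditive.sub_comp, Category.assoc, hdd, comp_zero, sub_zero, hrd]

/-- Rows of a one-row matrix have bounded weights. -/
lemma exists_lower (hX : Finite X.ι) (r : X ⟶ F) : ∃ N : ℕ, WGe Pk (-(N : ℤ)) r := by
  classical
  have := Fintype.ofFinite X.ι
  refine ⟨∑ i, ∑ j ∈ Hom.supp r i, Pk.bd (X.X i) (F.X j), fun i j => ?_⟩
  by_cases hj : r.m i j = 0
  · rw [hj]; exact Pinch.Ge.zero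
  · have hj' := (Hom.mem_supp r i j).2 hj
    refine (Pinch.ge_bd Pk (r.m i j)).mono ?_
    have h1 : Pk.bd (X.X i) (F.X j) ≤ ∑ j ∈ Hom.supp r i, Pk.bd (X.X i) (F.X j) :=
      Finset.single_le_sum (f := fun j => Pk.bd (X.X i) (F.X j)) (fun _ _ => Nat.zero_le _) hj'
    have h2 : ∑ j ∈ Hom.supp r i, Pk.bd (X.X i) (F.X j)
        ≤ ∑ i, ∑ j ∈ Hom.supp r i, Pk.bd (X.X i) (F.X j) :=
      Finset.single_le_sum (f := fun i => ∑ j ∈ Hom.supp r i, Pk.bd (X.X i) (F.X j))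
        (fun _ _ => Nat.zero_le _) (Finset.mem_univ i)
    have h3 : ((Pk.bd (X.X i) (F.X j) : ℕ) : ℤ)
        ≤ ((∑ i, ∑ j ∈ Hom.supp r i, Pk.bd (X.X i) (F.X j) : ℕ) : ℤ) := by
      exact_mod_cast h1.trans h2
    linarith

/-- (I1) Cycles over the pinched category are boundaries. -/
theorem cycle_boundary (hX : Finite X.ι) (hd : AllPP Pk d) (hdh : Homog a a 1 d)
    (hdd : d ≫ d = 0) (h0C : AllC0 Pk h0) (h0h : Homog a a (-1) h0)
    (hc0 : W Pk 0 d ≫ h0 + h0 ≫ W Pk 0 d = 𝟙 F)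
    (hh : Homog a a (-1) h) (hc : d ≫ h + h ≫ d = 𝟙 F) {n : ℤ} {q : X ⟶ F}
    (hq : AllPP Pk q) (hqh : Homog e a n q) (hqd : q ≫ d = 0) :
    ∃ r : X ⟶ F, Homog e a (n - 1) r ∧ AllPP Pk r ∧ q = r ≫ d := by
  obtain ⟨N, hN⟩ := exists_lower (Pk := Pk) hX (q ≫ h)
  have e1 : (q ≫ h) ≫ d = q := by
    conv_rhs => rw [← Category.comp_id q, ← hc]
    rw [Preadditive.comp_add, ← Category.assoc q d h, hqd, zero_comp, zero_add,
      Category.assoc]
  obtain ⟨r, hr, hrw, hrd⟩ := improve (AllPP.wGe hd) h0C h0h hdd hc0 (AllPP.wGe hq) hdh N (q ≫ h)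
    (hqh.comp' hh (by ring) : Homog e a (n - 1) (q ≫ h)) hN e1
  -- weight zero parts
  have h1 : W Pk 0 r ≫ W Pk 0 d = W Pk 0 q := by
    have := W_comp hrw (AllPP.wGe hd)
    rw [add_zero] at this
    rw [← this, hrd]
  have h2 : W Pk 0 q ≫ W Pk 0 d = 0 := by
    have := W_comp (AllPP.wGe hq) (AllPP.wGe hd)
    rw [add_zero] at this
    rw [← this, hqd]
    ext i j
    simp
  have h3 : (W Pk 0 q ≫ h0) ≫ W Pk 0 d = W Pk 0 q := by
    conv_rhs => rw [← Category.comp_id (W Pk 0 q), ← hc0]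
    rw [Preadditive.comp_add, ← Category.assoc (W Pk 0 q) (W Pk 0 d) h0, h2, zero_comp,
      zero_add, Category.assoc]
  have hs0 : AllC0 Pk (W Pk 0 q ≫ h0) := (AllPP.W_mem hq).comp h0C
  have h4 : (W Pk 0 r - W Pk 0 q ≫ h0) ≫ W Pk 0 d = 0 := by
    rw [Preadditive.sub_comp, h1, h3, sub_self]
  set u := (W Pk 0 r - W Pk 0 q ≫ h0) ≫ h0 with hu
  have h5 : u ≫ W Pk 0 d = W Pk 0 r - W Pk 0 q ≫ h0 := by
    conv_rhs => rw [← Category.comp_id (W Pk 0 r - W Pk 0 q ≫ h0), ← hc0]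
    rw [Preadditive.comp_add, ← Category.assoc _ (W Pk 0 d) h0, h4, zero_comp,
      zero_add, ← Category.assoc]
  have hW1 : W Pk 0 (W Pk 0 r - W Pk 0 q ≫ h0) = W Pk 0 r - W Pk 0 q ≫ h0 := by
    rw [W_sub, W_W, (AllC0.W_eq hs0)]
  have hge1 : WGe Pk 0 (W Pk 0 r - W Pk 0 q ≫ h0) := by
    rw [← hW1]; exact wGe_W 0 _
  have huw : WGe Pk 0 u := by
    have := hge1.comp (AllC0.wGe h0C)
    rwa [add_zero] at this
  have hWu : W Pk 0 u = u := by
    have := W_comp (Pk := Pk) hge1 (AllC0.wGe h0C)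
    rw [add_zero, hW1, (AllC0.W_eq h0C)] at this
    exact this
  have huh : Homog e a (n - 1 - 1) u := by
    refine ((Homog_W hr 0).sub ((Homog_W hqh 0).comp' h0h ?_)).comp' h0h ?_
    · ring
    · ring
  refine ⟨r - u ≫ d, hr.sub (huh.comp' hdh (by ring)), ?_, ?_⟩
  · refine AllPP.of ?_ ?_
    · have := huw.comp (AllPP.wGe hd)
      rw [add_zero] at this
      exact hrw.sub this
    · have : W Pk 0 (r - u ≫ d) = W Pk 0 q ≫ h0 := by
        have h6 := W_comp huw (AllPP.wGe hd)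
        rw [add_zero, hWu, h5] at h6
        rw [W_sub, h6]
        abel
      rw [this]
      exact hs0
  · rw [Preadditive.sub_comp, Category.assoc, hdd, comp_zero, sub_zero, hrd]

end cons

/-! ### Nakayama for finite complexes -/

section nak

variable [MonoidalPreadditive C]

variable {a : F.ι → ℤ} {d h0 : F ⟶ F}

lemma exists_upper (hF : Finite F.ι) : ∃ B : ℤ, ∀ f : F ⟶ F, WGe Pk B f → f = 0 := by
  classical
  have := Fintype.ofFinite F.ι
  refine ⟨((∑ i, ∑ j, Pk.bd (F.X i) (F.X j) : ℕ) : ℤ) + 1, fun f hf => ?_⟩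
  ext i j
  refine (hf i j).eq_zero ?_
  have h1 : Pk.bd (F.X i) (F.X j) ≤ ∑ j, Pk.bd (F.X i) (F.X j) :=
    Finset.single_le_sum (f := fun j => Pk.bd (F.X i) (F.X j)) (fun _ _ => Nat.zero_le _)
      (Finset.mem_univ j)
  have h2 : ∑ j, Pk.bd (F.X i) (F.X j) ≤ ∑ i, ∑ j, Pk.bd (F.X i) (F.X j) :=
    Finset.single_le_sum (f := fun i => ∑ j, Pk.bd (F.X i) (F.X j))
      (fun _ _ => Nat.zero_le _) (Finset.mem_univ i)
  have h3 : ((Pk.bd (F.X i) (F.X j) : ℕ) : ℤ)
      ≤ ((∑ i, ∑ j, Pk.bd (F.X i) (F.X j) : ℕ) : ℤ) := by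
    exact_mod_cast h1.trans h2
  exact Int.lt_add_one_iff.2 h3

/-- (I2) A finite complex over the pinched category whose weight zero part is contractible
over `C0` is contractible. -/
theorem nakayama (hF : Finite F.ι) (hd : AllPP Pk d) (hdh : Homog a a 1 d)
    (hdd : d ≫ d = 0) (h0C : AllC0 Pk h0) (h0h : Homog a a (-1) h0)
    (hc0 : W Pk 0 d ≫ h0 + h0 ≫ W Pk 0 d = 𝟙 F) :
    ∃ h : F ⟶ F, Homog a a (-1) h ∧ AllPP Pk h ∧ d ≫ h + h ≫ d = 𝟙 F := by
  have key : ∀ k : ℕ, ∃ h : F ⟶ F, Homog a a (-1) h ∧ AllPP Pk h ∧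
      WGe Pk ((k : ℤ) + 1) (d ≫ h + h ≫ d - 𝟙 F) := by
    intro k
    induction k with
    | zero =>
      refine ⟨h0, h0h, (AllC0.allPP h0C), ?_⟩
      have hge : WGe Pk 0 (d ≫ h0 + h0 ≫ d - 𝟙 F) := by
        have h1 := (AllPP.wGe hd).comp (AllC0.wGe h0C)
        have h2 := (AllC0.wGe h0C).comp (AllPP.wGe hd)
        rw [add_zero] at h1 h2
        exact (h1.add h2).sub (AllC0.wGe (allC0_id Pk F))
      have hW : W Pk 0 (d ≫ h0 + h0 ≫ d - 𝟙 F) = 0 := by
        have h1 := W_comp (AllPP.wGe hd) (AllC0.wGe h0C)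
        have h2 := W_comp (AllC0.wGe h0C) (AllPP.wGe hd)
        rw [add_zero, (AllC0.W_eq h0C)] at h1 h2
        rw [W_sub, W_add, h1, h2, hc0, (AllC0.W_eq (allC0_id Pk F)), sub_self]
      have := hge.succ hW
      simpa using this
    | succ k ih =>
      obtain ⟨h, hh, hP, hN⟩ := ih
      set N := d ≫ h + h ≫ d - 𝟙 F with hNdef
      have hNP : AllPP Pk N := AllPP.of_ge_one (hN.mono (by linarith [Int.natCast_nonneg k]))
      have hdN : d ≫ N = N ≫ d := by
        rw [hNdef, Preadditive.comp_sub, Preadditive.sub_comp, Preadditive.comp_add,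
          Preadditive.add_comp, ← Category.assoc d d h, hdd, zero_comp, zero_add,
          Category.assoc h d d, hdd, comp_zero, add_zero, Category.comp_id, Category.id_comp,
          Category.assoc]
      have hNh : Homog a a 0 N := by
        refine ((hdh.comp' hh ?_).add (hh.comp' hdh ?_)).sub Homog.id
        · norm_num
        · norm_num
      refine ⟨h - h ≫ N, hh.sub (hh.comp' hNh (by norm_num)), hP.sub (hP.comp hNP), ?_⟩
      have e1 : d ≫ (h - h ≫ N) + (h - h ≫ N) ≫ d - 𝟙 F = -(N ≫ N) := by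
        have e2 : d ≫ h + h ≫ d = 𝟙 F + N := by rw [hNdef]; abel
        calc d ≫ (h - h ≫ N) + (h - h ≫ N) ≫ d - 𝟙 F
            = (d ≫ h + h ≫ d) - (d ≫ h) ≫ N - h ≫ (N ≫ d) - 𝟙 F := by
              rw [Preadditive.comp_sub, Preadditive.sub_comp, Category.assoc, Category.assoc]
              abel
          _ = (d ≫ h + h ≫ d) - (d ≫ h + h ≫ d) ≫ N - 𝟙 F := by
              rw [← hdN, Preadditive.add_comp, Category.assoc h d N]
              abel
          _ = -(N ≫ N) := by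
              rw [e2, Preadditive.add_comp, Category.id_comp]
              abel
      rw [e1]
      refine (hN.comp hN).neg.mono ?_
      push_cast
      linarith [Int.natCast_nonneg k]
  obtain ⟨B, hB⟩ := exists_upper (Pk := Pk) hF
  obtain ⟨h, hh, hP, hN⟩ := key B.toNat
  refine ⟨h, hh, hP, ?_⟩
  have := hB _ (hN.mono (by linarith [Int.self_le_toNat B]))
  exact sub_eq_zero.1 this

end nak

end Fam

end Pool.Agent.H75.TT
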